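import Mathlib

set_option autoImplicit false

namespace Pool.Agent.Results.MP_8aa97c_co.UpperSqrt3

/-- `A` is `s`-spanning in the abelian group `G`: every group element is an integer combination
of the elements of `A` whose coefficients have absolute values summing to at most `s`. -/
def IsSpanning {G : Type} [AddCommGroup G] (s : ℕ) (A : Finset G) : Prop :=
  ∀ g : G, ∃ c : G → ℤ, (∑ a ∈ A, |c a|) ≤ (s : ℤ) ∧ ∑ a ∈ A, c a • a = g

/-- The least size of an `s`-spanning subset of the cyclic group of order `n`. -/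
noncomputable def phi (n s : ℕ) : ℕ :=
  sInf {m : ℕ | ∃ A : Finset (ZMod n), A.card = m ∧ IsSpanning s A}

lemma phi_le {n s : ℕ} (A : Finset (ZMod n)) (hA : IsSpanning s A) : phi n s ≤ A.card :=
  Nat.sInf_le ⟨A, rfl, hA⟩

/-- `x` is zero or plus or minus an element of `A`. -/
def Rep {G : Type} [AddCommGroup G] (A : Finset G) (x : G) : Prop :=
  ∃ a ∈ A, ∃ e : ℤ, |e| ≤ 1 ∧ x = e • a

lemma spanning_of_rep {G : Type} [AddCommGroup G] [DecidableEq G] (A : Finset G)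
    (h : ∀ g : G, ∃ x y : G, Rep A x ∧ Rep A y ∧ g = x + y) : IsSpanning 2 A := by
  intro g
  obtain ⟨x, y, ⟨a, ha, e, he, rfl⟩, ⟨b, hb, f, hf, rfl⟩, rfl⟩ := h g
  refine ⟨fun z => (if z = a then e else 0) + (if z = b then f else 0), ?_, ?_⟩
  · calc ∑ z ∈ A, |(if z = a then e else 0) + (if z = b then f else 0)|
        ≤ ∑ z ∈ A, ((if z = a then |e| else 0) + (if z = b then |f| else 0)) := by
          apply Finset.sum_le_sum
          intro z _
          refine (abs_add_le _ _).trans ?_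
          apply add_le_add
          · split_ifs <;> simp
          · split_ifs <;> simp
      _ = |e| + |f| := by
          rw [Finset.sum_add_distrib, Finset.sum_ite_eq' A a, Finset.sum_ite_eq' A b,
            if_pos ha, if_pos hb]
      _ ≤ ((2 : ℕ) : ℤ) := by push_cast; linarith
  · simp only [add_smul, Finset.sum_add_distrib, ite_smul, zero_smul]
    rw [Finset.sum_ite_eq' A a, Finset.sum_ite_eq' A b, if_pos ha, if_pos hb]

/-! ### The covering -/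

/-- The set of the construction. -/
noncomputable def cset (n : ℕ) (h x ρ δ : ℤ) : Finset (ZMod n) :=
  ((Finset.Icc 1 (h + δ)).image (fun t : ℤ => ((t * (1 + (6 * h + 2 * x)) : ℤ) : ZMod n))) ∪
  ((Finset.Icc (2 * h + (ρ + 1) / 2) (3 * h + ρ + δ)).image
    (fun i : ℤ => ((i + h * (6 * h + 2 * x) : ℤ) : ZMod n))) ∪
  ((Finset.Icc (2 * h + 1) (3 * h + 1 + δ)).image
    (fun j : ℤ => (((h + ρ - x) + j * (6 * h + 2 * x) : ℤ) : ZMod n)))

lemma repD {n : ℕ} {h x ρ δ t : ℤ} (hh : 1 ≤ h) (hδ : 0 ≤ δ) (ht : |t| ≤ h + δ) :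
    Rep (cset n h x ρ δ) ((t * (1 + (6 * h + 2 * x)) : ℤ) : ZMod n) := by
  have key : ∀ u : ℤ, 1 ≤ u → u ≤ h + δ →
      ((u * (1 + (6 * h + 2 * x)) : ℤ) : ZMod n) ∈ cset n h x ρ δ := by
    intro u hu1 hu2
    unfold cset
    apply Finset.mem_union_left
    apply Finset.mem_union_left
    exact Finset.mem_image_of_mem _ (Finset.mem_Icc.mpr ⟨hu1, hu2⟩)
  rw [abs_le] at ht
  rcases lt_trichotomy t 0 with h0 | h0 | h0
  · refine ⟨_, key (-t) (by omega) (by omega), -1, by simp, ?_⟩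
    push_cast
    rw [neg_one_smul]
    ring
  · refine ⟨_, key 1 (by omega) (by omega), 0, by simp, ?_⟩
    rw [h0]
    simp
  · refine ⟨_, key t (by omega) (by omega), 1, by simp, ?_⟩
    rw [one_smul]

lemma repU {n : ℕ} {h x ρ δ i : ℤ}
    (hn : (n : ℤ) = 2 * h * (6 * h + 2 * x) + (4 * h + ρ))
    (h1 : h - δ ≤ i) (h2 : i ≤ 3 * h + ρ + δ) :
    Rep (cset n h x ρ δ) ((i + h * (6 * h + 2 * x) : ℤ) : ZMod n) := by
  have key : ∀ u : ℤ, 2 * h + (ρ + 1) / 2 ≤ u → u ≤ 3 * h + ρ + δ →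
      ((u + h * (6 * h + 2 * x) : ℤ) : ZMod n) ∈ cset n h x ρ δ := by
    intro u hu1 hu2
    unfold cset
    apply Finset.mem_union_left
    apply Finset.mem_union_right
    exact Finset.mem_image_of_mem _ (Finset.mem_Icc.mpr ⟨hu1, hu2⟩)
  by_cases hi : 2 * h + (ρ + 1) / 2 ≤ i
  · exact ⟨_, key i hi h2, 1, by simp, by rw [one_smul]⟩
  · refine ⟨_, key (4 * h + ρ - i) (by omega) (by omega), -1, by simp, ?_⟩
    rw [neg_one_smul, ← Int.cast_neg, ← sub_eq_zero, ← Int.cast_sub]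
    have : i + h * (6 * h + 2 * x) - -(4 * h + ρ - i + h * (6 * h + 2 * x)) = (n : ℤ) := by
      rw [hn]; ring
    rw [this]
    simp

lemma repV {n : ℕ} {h x ρ δ j : ℤ}
    (hn : (n : ℤ) = 2 * h * (6 * h + 2 * x) + (4 * h + ρ))
    (h1 : h - δ ≤ j) (h2 : j ≤ 3 * h + 1 + δ) :
    Rep (cset n h x ρ δ) (((h + ρ - x) + j * (6 * h + 2 * x) : ℤ) : ZMod n) := by
  have key : ∀ u : ℤ, 2 * h + 1 ≤ u → u ≤ 3 * h + 1 + δ →
      (((h + ρ - x) + u * (6 * h + 2 * x) : ℤ) : ZMod n) ∈ cset n h x ρ δ := by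
    intro u hu1 hu2
    unfold cset
    apply Finset.mem_union_right
    exact Finset.mem_image_of_mem _ (Finset.mem_Icc.mpr ⟨hu1, hu2⟩)
  by_cases hj : 2 * h + 1 ≤ j
  · exact ⟨_, key j hj h2, 1, by simp, by rw [one_smul]⟩
  · refine ⟨_, key (4 * h + 1 - j) (by omega) (by omega), -1, by simp, ?_⟩
    rw [neg_one_smul, ← Int.cast_neg, ← sub_eq_zero, ← Int.cast_sub]
    have : (h + ρ - x) + j * (6 * h + 2 * x) -
        -((h + ρ - x) + (4 * h + 1 - j) * (6 * h + 2 * x)) = 2 * (n : ℤ) := by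
      rw [hn]; ring
    rw [this]
    simp

lemma cset_spanning {n : ℕ} {h x ρ δ : ℤ} (hh : 1 ≤ h) (hx : 0 ≤ x) (hρ : 0 ≤ ρ)
    (hxδ : x ≤ δ) (hρδ : ρ ≤ δ)
    (hn : (n : ℤ) = 2 * h * (6 * h + 2 * x) + (4 * h + ρ)) :
    IsSpanning 2 (cset n h x ρ δ) := by
  have hnpos : 0 < n := by
    have : (0 : ℤ) < n := by rw [hn]; positivity
    exact_mod_cast this
  have : NeZero n := ⟨hnpos.ne'⟩
  apply spanning_of_rep
  intro N
  obtain ⟨g, hg⟩ : ∃ g : ℤ, g = 6 * h + 2 * x := ⟨_, rfl⟩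
  have hgpos : 0 < g := by omega
  obtain ⟨m, hm⟩ : ∃ m : ℤ, m = (N.val : ℤ) := ⟨_, rfl⟩
  have hmn : m < n := by rw [hm]; exact_mod_cast N.val_lt
  have hm0 : 0 ≤ m := by rw [hm]; positivity
  have hN : N = ((m : ℤ) : ZMod n) := by rw [hm]; simp
  have hN' : N = ((m + n : ℤ) : ZMod n) := by rw [hN]; simp
  have hD := @repD n h x ρ δ
  have hU := @repU n h x ρ δ
  have hV := @repV n h x ρ δ
  rw [← hg] at hn hD hU hV
  obtain ⟨X, Y, hX0, hXmax, hY0, hYq, hmXY⟩ : ∃ X Y : ℤ, 0 ≤ X ∧ (X < g ∨ X < 4 * h + ρ) ∧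
      0 ≤ Y ∧ Y ≤ 2 * h ∧ m = X + Y * g := by
    by_cases hc : m / g ≤ 2 * h
    · exact ⟨m % g, m / g, Int.emod_nonneg _ hgpos.ne', Or.inl (Int.emod_lt_of_pos _ hgpos),
        Int.ediv_nonneg hm0 hgpos.le, hc, (Int.emod_add_ediv_mul m g).symm⟩
    · push Not at hc
      have h1 : (2 * h) * g ≤ m := by
        have := Int.ediv_mul_le m hgpos.ne'
        nlinarith
      exact ⟨m - (2 * h) * g, 2 * h, by linarith, Or.inr (by linarith), by omega, le_rfl,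
        by ring⟩
  by_cases hA1 : h - δ ≤ X - Y + h
  · by_cases hA2 : X - Y + h ≤ 3 * h + ρ + δ
    · refine ⟨_, _, hD (t := Y - h) hh (by omega) (abs_le.mpr ⟨by omega, by omega⟩),
        hU (i := X - Y + h) hn hA1 hA2, ?_⟩
      rw [hN, ← Int.cast_add]
      congr 1
      rw [hmXY]
      ring
    · push Not at hA2
      by_cases hC : h - δ ≤ X + (4 * h + ρ) - g - (h + ρ - x)
      · refine ⟨_, _, hU (i := X + (4 * h + ρ) - g - (h + ρ - x)) hn hC (by omega),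
          hV (j := Y + 2 * h + 1 - h) hn (by omega) (by omega), ?_⟩
        rw [hN', ← Int.cast_add]
        congr 1
        rw [hmXY, hn]
        ring
      · push Not at hC
        refine ⟨_, _, hD (t := X + (4 * h + ρ) - g - (h + ρ - x)) hh (by omega)
          (abs_le.mpr ⟨by omega, by omega⟩),
          hV (j := Y + 2 * h + 1 - (X + (4 * h + ρ) - g - (h + ρ - x))) hn (by omega)
          (by omega), ?_⟩
        rw [hN', ← Int.cast_add]
        congr 1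
        rw [hmXY, hn]
        ring
  · push Not at hA1
    refine ⟨_, _, hD (t := X - (h + ρ - x)) hh (by omega) (abs_le.mpr ⟨by omega, by omega⟩),
      hV (j := Y - (X - (h + ρ - x))) hn (by omega) (by omega), ?_⟩
    rw [hN, ← Int.cast_add]
    congr 1
    rw [hmXY]
    ring

lemma cset_card {n : ℕ} {h x ρ δ : ℤ} (hh : 1 ≤ h) (hρ : 0 ≤ ρ) (hδ : 0 ≤ δ) :
    ((cset n h x ρ δ).card : ℤ) ≤ 3 * h + 3 * δ + ρ / 2 + 2 := by
  have h1 : (cset n h x ρ δ).card ≤ (Finset.Icc 1 (h + δ)).card +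
      (Finset.Icc (2 * h + (ρ + 1) / 2) (3 * h + ρ + δ)).card +
      (Finset.Icc (2 * h + 1) (3 * h + 1 + δ)).card := by
    unfold cset
    refine (Finset.card_union_le _ _).trans ?_
    refine add_le_add ?_ Finset.card_image_le
    refine (Finset.card_union_le _ _).trans ?_
    exact add_le_add Finset.card_image_le Finset.card_image_le
  have h2 : ((cset n h x ρ δ).card : ℤ) ≤ ((Finset.Icc 1 (h + δ)).card : ℤ) +
      ((Finset.Icc (2 * h + (ρ + 1) / 2) (3 * h + ρ + δ)).card : ℤ) +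
      ((Finset.Icc (2 * h + 1) (3 * h + 1 + δ)).card : ℤ) := by exact_mod_cast h1
  rw [Int.card_Icc, Int.card_Icc, Int.card_Icc] at h2
  rw [Int.toNat_of_nonneg (by omega), Int.toNat_of_nonneg (by omega),
    Int.toNat_of_nonneg (by omega)] at h2
  omega

/-! ### Choice of the parameters -/

lemma exists_params (n : ℕ) (hn : 56 ≤ n) : ∃ h x ρ δ h0 j : ℤ,
    1 ≤ h ∧ 0 ≤ x ∧ 0 ≤ ρ ∧ x ≤ δ ∧ ρ ≤ δ ∧ (n : ℤ) = 2 * h * (6 * h + 2 * x) + (4 * h + ρ) ∧
    h ≤ h0 ∧ 12 * h0 ^ 2 ≤ n ∧ 1 ≤ j ∧ 3 * (j - 1) ^ 2 < h0 ∧ δ ≤ 24 * j + 40 := by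
  -- the largest admissible value `H`
  obtain ⟨H, hH, hP, hnP⟩ : ∃ H : ℕ, 2 ≤ H ∧ 12 * H ^ 2 + 4 * H ≤ n ∧
      n < 12 * (H + 1) ^ 2 + 4 * (H + 1) := by
    have hex : ∃ k : ℕ, n < 12 * k ^ 2 + 4 * k := ⟨n, by nlinarith⟩
    have h1 := Nat.find_spec hex
    have h3 : 3 ≤ Nat.find hex := by
      by_contra hcon
      push Not at hcon
      interval_cases hk : Nat.find hex <;> omega
    have h2 := Nat.find_min hex (m := Nat.find hex - 1) (by omega)
    push Not at h2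
    refine ⟨Nat.find hex - 1, by omega, h2, ?_⟩
    rwa [Nat.sub_add_cancel (by omega)]
  -- quotient and remainder
  obtain ⟨X0, r0, hr0, hdecomp⟩ : ∃ X0 r0 : ℕ, r0 < 4 * H ∧ n = 4 * H * X0 + r0 :=
    ⟨n / (4 * H), n % (4 * H), Nat.mod_lt _ (by omega), (Nat.div_add_mod n (4 * H)).symm⟩
  obtain ⟨y, hy⟩ : ∃ y : ℤ, y = (X0 : ℤ) - 3 * H := ⟨_, rfl⟩
  have hHz : (2 : ℤ) ≤ H := by exact_mod_cast hH
  have hPz : 12 * (H : ℤ) ^ 2 + 4 * H ≤ n := by exact_mod_cast hP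
  have hnPz : (n : ℤ) < 12 * ((H : ℤ) + 1) ^ 2 + 4 * (H + 1) := by exact_mod_cast hnP
  have hr0z : (r0 : ℤ) < 4 * H := by exact_mod_cast hr0
  have hr00 : (0 : ℤ) ≤ r0 := by positivity
  have hdz : (n : ℤ) = 4 * H * X0 + r0 := by exact_mod_cast hdecomp
  have hX0 : (X0 : ℤ) = y + 3 * H := by rw [hy]; ring
  have hy1 : 1 ≤ y := by
    by_contra hcon
    push Not at hcon
    have : y ≤ 0 := by omega
    rw [hX0] at hdz
    nlinarith
  have hy10 : y ≤ 10 := by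
    by_contra hcon
    push Not at hcon
    have : 11 ≤ y := by omega
    rw [hX0] at hdz
    nlinarith
  -- the number of steps
  have hex2 : ∃ j : ℕ, 4 * ((H : ℤ) - j) ≤ r0 + 4 * j * y + 12 * (j : ℤ) ^ 2 :=
    ⟨H, by nlinarith⟩
  obtain ⟨j, hj, hjmin⟩ : ∃ j : ℕ, 4 * ((H : ℤ) - j) ≤ r0 + 4 * j * y + 12 * (j : ℤ) ^ 2 ∧
      ∀ i : ℕ, i < j → ¬ 4 * ((H : ℤ) - i) ≤ r0 + 4 * i * y + 12 * (i : ℤ) ^ 2 :=
    ⟨Nat.find hex2, Nat.find_spec hex2, fun i hi => Nat.find_min hex2 hi⟩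
  have hj1 : 1 ≤ j := by
    by_contra hcon
    have : j = 0 := by omega
    subst this
    push_cast at hj
    linarith
  have hprev := hjmin (j - 1) (by omega)
  push Not at hprev
  obtain ⟨i, rfl⟩ : ∃ i : ℕ, j = i + 1 := ⟨j - 1, by omega⟩
  simp only [Nat.add_sub_cancel] at hprev
  push_cast at hj
  have hi0 : (0 : ℤ) ≤ i := by positivity
  have hsq : 3 * (i : ℤ) ^ 2 < H := by nlinarith
  have hiH : (i : ℤ) + 1 < H := by nlinarith
  refine ⟨(H : ℤ) - (i + 1), y + 6 * (i + 1),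
    r0 + 4 * (i + 1) * y + 12 * ((i : ℤ) + 1) ^ 2 - 4 * ((H : ℤ) - (i + 1)),
    24 * (i + 1) + 4 * y, H, i + 1, by linarith, by positivity, by linarith, by nlinarith, ?_, ?_,
    by linarith, by nlinarith, by linarith, by simpa using hsq, by linarith⟩
  · nlinarith
  · rw [hdz, hX0]
    ring

theorem result : ∀ n : ℕ, 1 ≤ n →
    (phi n 2 : ℝ) ≤ √3 / 2 * √n + 110 * (n : ℝ) ^ (1 / 4 : ℝ) := by
  intro n hn1
  have hnR : (1 : ℝ) ≤ n := by exact_mod_cast hn1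
  have hroot : (1 : ℝ) ≤ (n : ℝ) ^ (1 / 4 : ℝ) := Real.one_le_rpow hnR (by norm_num)
  obtain ⟨w, hw⟩ : ∃ w : ℝ, w = (n : ℝ) ^ (1 / 4 : ℝ) := ⟨_, rfl⟩
  have hw4 : w ^ 4 = n := by
    rw [hw, ← Real.rpow_natCast, ← Real.rpow_mul (by positivity)]
    norm_num
  rw [← hw] at hroot ⊢
  by_cases hn : n < 56
  · have : NeZero n := ⟨by omega⟩
    have hspan : IsSpanning 2 (Finset.univ : Finset (ZMod n)) := by
      apply spanning_of_rep
      intro g
      exact ⟨g, 0, ⟨g, Finset.mem_univ _, 1, by simp, by simp⟩,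
        ⟨0, Finset.mem_univ _, 0, by simp, by simp⟩, by simp⟩
    have h1 := phi_le _ hspan
    rw [Finset.card_univ, ZMod.card] at h1
    have h2 : (phi n 2 : ℝ) ≤ 56 := by
      have : phi n 2 ≤ 56 := by omega
      exact_mod_cast this
    have h3 : 0 ≤ √3 / 2 * √(n : ℝ) := by positivity
    linarith
  · push Not at hn
    obtain ⟨h, x, ρ, δ, h0, j, hh, hx, hρ, hxδ, hρδ, hnn, hhh, h12, hj1, hj3, hδj⟩ :=
      exists_params n hn
    have hspan := cset_spanning hh hx hρ hxδ hρδ hnn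
    have h1 := phi_le _ hspan
    have h2 := @cset_card n h x ρ δ hh hρ (hρ.trans hρδ)
    have h3 : (phi n 2 : ℤ) ≤ 3 * h0 + 84 * (j - 1) + 226 := by
      have : (phi n 2 : ℤ) ≤ (cset n h x ρ δ).card := by exact_mod_cast h1
      omega
    have h4 : (phi n 2 : ℝ) ≤ 3 * h0 + 84 * (j - 1) + 226 := by exact_mod_cast h3
    have h12R : 12 * (h0 : ℝ) ^ 2 ≤ n := by exact_mod_cast h12
    have hj3R : 3 * ((j : ℝ) - 1) ^ 2 < h0 := by exact_mod_cast hj3
    have hj1R : (1 : ℝ) ≤ j := by exact_mod_cast hj1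
    have hh0 : (0 : ℝ) ≤ h0 := by nlinarith [sq_nonneg ((j : ℝ) - 1)]
    have hA : 3 * (h0 : ℝ) ≤ √3 / 2 * √(n : ℝ) := by
      have e1 : (3 * (h0 : ℝ)) ^ 2 ≤ (√3 / 2 * √(n : ℝ)) ^ 2 := by
        rw [mul_pow, mul_pow, div_pow, Real.sq_sqrt (by positivity), Real.sq_sqrt (by positivity)]
        nlinarith
      exact (pow_le_pow_iff_left₀ (by positivity) (by positivity) two_ne_zero).mp e1
    have hw0 : 0 ≤ w := by linarith
    have hB : (j : ℝ) - 1 ≤ 5 / 16 * w := by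
      have e1 : ((j : ℝ) - 1) ^ 4 ≤ (5 / 16 * w) ^ 4 := by
        have e2 : (3 * ((j : ℝ) - 1) ^ 2) ^ 2 ≤ (h0 : ℝ) ^ 2 :=
          pow_le_pow_left₀ (by positivity) hj3R.le 2
        rw [mul_pow (5 / 16 : ℝ) w 4, hw4]
        nlinarith
      exact (pow_le_pow_iff_left₀ (by linarith) (by positivity) (by norm_num)).mp e1
    have hC : 2.7 ≤ w := by
      have e1 : (2.7 : ℝ) ^ 4 ≤ w ^ 4 := by
        rw [hw4]
        have : (56 : ℝ) ≤ n := by exact_mod_cast hn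
        norm_num
        linarith
      exact (pow_le_pow_iff_left₀ (by norm_num) hw0 (by norm_num)).mp e1
    linarith

end Pool.Agent.Results.MP_8aa97c_co.UpperSqrt3
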